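import Mathlib
import Pool.Agent.H75.SD.Fam

/-!
# The square of a strong d-space need not be a strong d-space

We construct a strong d-space `Y` such that the space of all (continuous) maps from the discrete
two-point space into `Y`, with the topology of pointwise convergence, is not a strong d-space.

Let `F false`, `F true` be disjoint families of free ultrafilters on `ℕ` such that every infinite set
belongs to a member of each family. The space `Y` is the disjoint union of two pieces. The piece with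
the index `b` consists of an increasing chain `d b 0 < d b 1 < ...` with supremum `w b`, a point
`x b`, isolated maximal points `p b k` above `x b` and above the points `d b j`, `j ≤ k`, and a
maximal point `a b u` above everything but the `p b k`, for each ultrafilter `u` of the family `F b`;
the neighbourhoods of `a b u` contain the points `p b k` for the `k` from a set in `u`.
-/

set_option autoImplicit false

namespace Pool.Agent.Results.MP_5f2357_gt.PowerNotStrong

open Set Filter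

/-- `up x` is the set of the points above `x` in the specialization order, in which `x ≤ y` if and
only if `x` is in the closure of `{y}`. -/
def up {X : Type} [TopologicalSpace X] (x : X) : Set X := {y | x ∈ closure {y}}

/-- The set `D` is nonempty and directed in the specialization order. -/
def Directed' {X : Type} [TopologicalSpace X] (D : Set X) : Prop :=
  D.Nonempty ∧ ∀ c ∈ D, ∀ d ∈ D, ∃ e ∈ D, e ∈ up c ∧ e ∈ up d

/-- `X` is a strong d-space: a `T₀` space in which, for every directed set `D`, every point `x` and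
every open set `U`, the inclusion `(⋂ d ∈ D, ↑d) ∩ ↑x ⊆ U` implies `↑d ∩ ↑x ⊆ U` for some `d ∈ D`. -/
def StrongDSpace (X : Type) [TopologicalSpace X] : Prop :=
  T0Space X ∧ ∀ (D : Set X) (x : X) (U : Set X), Directed' D → IsOpen U →
    (⋂ d ∈ D, up d) ∩ up x ⊆ U → ∃ d ∈ D, up d ∩ up x ⊆ U

/-- The points of the space `Y`. -/
inductive Pt (F : Bool → Set (Ultrafilter ℕ)) : Type
  | d (b : Bool) (k : ℕ) : Pt F
  | w (b : Bool) : Pt F
  | x (b : Bool) : Pt F
  | p (b : Bool) (k : ℕ) : Pt F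
  | a (b : Bool) (u : F b) : Pt F

open Pt

/-- The open sets of `Y`. -/
structure Op {F : Bool → Set (Ultrafilter ℕ)} (U : Set (Pt F)) : Prop where
  d_up : ∀ b k, d b k ∈ U → ∀ j, k ≤ j → d b j ∈ U ∧ p b j ∈ U
  d_w : ∀ b k, d b k ∈ U → w b ∈ U
  w_d : ∀ b, w b ∈ U → ∃ k, d b k ∈ U
  w_a : ∀ b, w b ∈ U → ∀ u, a b u ∈ U
  x_p : ∀ b, x b ∈ U → ∀ k, p b k ∈ U
  x_a : ∀ b, x b ∈ U → ∀ u, a b u ∈ U
  a_p : ∀ b, ∀ u : F b, a b u ∈ U → {k | p b k ∈ U} ∈ (u : Ultrafilter ℕ)

instance (F : Bool → Set (Ultrafilter ℕ)) : TopologicalSpace (Pt F) where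
  IsOpen := Op
  isOpen_univ := by
    constructor <;> intros <;> first | trivial | exact ⟨trivial, trivial⟩ | exact ⟨0, trivial⟩ | skip
    exact Filter.univ_mem' fun _ => trivial
  isOpen_inter := by
    intro U V hU hV
    constructor
    · intro b k h j hj
      exact ⟨⟨(hU.d_up b k h.1 j hj).1, (hV.d_up b k h.2 j hj).1⟩,
        ⟨(hU.d_up b k h.1 j hj).2, (hV.d_up b k h.2 j hj).2⟩⟩
    · exact fun b k h => ⟨hU.d_w b k h.1, hV.d_w b k h.2⟩
    · intro b h
      obtain ⟨k, hk⟩ := hU.w_d b h.1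
      obtain ⟨l, hl⟩ := hV.w_d b h.2
      exact ⟨max k l, (hU.d_up b k hk _ (le_max_left _ _)).1, (hV.d_up b l hl _ (le_max_right _ _)).1⟩
    · exact fun b h u => ⟨hU.w_a b h.1 u, hV.w_a b h.2 u⟩
    · exact fun b h k => ⟨hU.x_p b h.1 k, hV.x_p b h.2 k⟩
    · exact fun b h u => ⟨hU.x_a b h.1 u, hV.x_a b h.2 u⟩
    · exact fun b u h => Filter.inter_mem (hU.a_p b u h.1) (hV.a_p b u h.2)
  isOpen_sUnion := by
    intro S hS
    constructor
    · rintro b k ⟨U, hU, h⟩ j hj
      exact ⟨⟨U, hU, ((hS U hU).d_up b k h j hj).1⟩, ⟨U, hU, ((hS U hU).d_up b k h j hj).2⟩⟩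
    · rintro b k ⟨U, hU, h⟩
      exact ⟨U, hU, (hS U hU).d_w b k h⟩
    · rintro b ⟨U, hU, h⟩
      obtain ⟨k, hk⟩ := (hS U hU).w_d b h
      exact ⟨k, U, hU, hk⟩
    · rintro b ⟨U, hU, h⟩ u
      exact ⟨U, hU, (hS U hU).w_a b h u⟩
    · rintro b ⟨U, hU, h⟩ k
      exact ⟨U, hU, (hS U hU).x_p b h k⟩
    · rintro b ⟨U, hU, h⟩ u
      exact ⟨U, hU, (hS U hU).x_a b h u⟩
    · rintro b u ⟨U, hU, h⟩
      exact Filter.mem_of_superset ((hS U hU).a_p b u h) fun k hk => ⟨U, hU, hk⟩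

variable {F : Bool → Set (Ultrafilter ℕ)}

theorem isOpen_iff (U : Set (Pt F)) : IsOpen U ↔ Op U := Iff.rfl

/-- The specialization order of `Y`, described explicitly: `up' z` is the set of the points above
`z`. -/
def up' : Pt F → Set (Pt F)
  | d b k => {y | (∃ j, k ≤ j ∧ (y = d b j ∨ y = p b j)) ∨ y = w b ∨ ∃ u, y = a b u}
  | w b => {y | y = w b ∨ ∃ u, y = a b u}
  | x b => {y | y = x b ∨ (∃ j, y = p b j) ∨ ∃ u, y = a b u}
  | p b k => {p b k}
  | a b u => {a b u}

theorem mem_up_iff {X : Type} [TopologicalSpace X] {x y : X} :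
    y ∈ up x ↔ ∀ U : Set X, IsOpen U → x ∈ U → y ∈ U := by
  unfold up
  simp only [mem_ofPred_eq, mem_closure_iff]
  constructor
  · intro h U hU hx
    obtain ⟨z, hz, rfl⟩ := h U hU hx
    exact hz
  · intro h U hU hx
    exact ⟨y, h U hU hx, rfl⟩

theorem up'_subset (z : Pt F) (U : Set (Pt F)) (hU : Op U) (hz : z ∈ U) : up' z ⊆ U := by
  rcases z with ⟨b, k⟩ | ⟨b⟩ | ⟨b⟩ | ⟨b, k⟩ | ⟨b, u⟩
  · rintro y (⟨j, hj, rfl | rfl⟩ | rfl | ⟨u, rfl⟩)
    · exact (hU.d_up b k hz j hj).1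
    · exact (hU.d_up b k hz j hj).2
    · exact hU.d_w b k hz
    · exact hU.w_a b (hU.d_w b k hz) u
  · rintro y (rfl | ⟨u, rfl⟩)
    · exact hz
    · exact hU.w_a b hz u
  · rintro y (rfl | ⟨j, rfl⟩ | ⟨u, rfl⟩)
    · exact hz
    · exact hU.x_p b hz j
    · exact hU.x_a b hz u
  · rintro y rfl
    exact hz
  · rintro y rfl
    exact hz

theorem free_mem {u : Ultrafilter ℕ} (hu : (u : Filter ℕ) ≤ cofinite) {S : Set ℕ}
    (hS : Sᶜ.Finite) : S ∈ u := hu (mem_cofinite.2 hS)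

theorem op_up_d (hF : ∀ b, ∀ u ∈ F b, (u : Filter ℕ) ≤ cofinite) (b : Bool) (k : ℕ) :
    Op (up' (d b k) : Set (Pt F)) := by
  constructor
  · rintro b' k' (⟨j, hj, h | h⟩ | h | ⟨u, h⟩) i hi <;> simp at h
    obtain ⟨rfl, rfl⟩ := h
    exact ⟨Or.inl ⟨i, hj.trans hi, Or.inl rfl⟩, Or.inl ⟨i, hj.trans hi, Or.inr rfl⟩⟩
  · rintro b' k' (⟨j, hj, h | h⟩ | h | ⟨u, h⟩) <;> simp at h
    obtain ⟨rfl, rfl⟩ := h
    exact Or.inr (Or.inl rfl)
  · rintro b' (⟨j, hj, h | h⟩ | h | ⟨u, h⟩) <;> simp at h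
    subst h
    exact ⟨k, Or.inl ⟨k, le_rfl, Or.inl rfl⟩⟩
  · rintro b' (⟨j, hj, h | h⟩ | h | ⟨u, h⟩) <;> simp at h
    subst h
    exact fun u => Or.inr (Or.inr ⟨u, rfl⟩)
  · rintro b' (⟨j, hj, h | h⟩ | h | ⟨u, h⟩) <;> simp at h
  · rintro b' (⟨j, hj, h | h⟩ | h | ⟨u, h⟩) <;> simp at h
  · rintro b' u' (⟨j, hj, h | h⟩ | h | ⟨u, h⟩) <;> simp at h
    obtain ⟨rfl, -⟩ := h
    refine free_mem (hF b' _ u'.2) ((Set.finite_lt_nat k).subset ?_)
    intro j hj
    simp only [mem_compl_iff, mem_ofPred_eq] at hj ⊢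
    by_contra hlt
    exact hj (Or.inl ⟨j, not_lt.1 hlt, Or.inr rfl⟩)

theorem op_up_x (b : Bool) : Op (up' (x b) : Set (Pt F)) := by
  constructor
  · rintro b' k' (h | ⟨j, h⟩ | ⟨u, h⟩) <;> simp at h
  · rintro b' k' (h | ⟨j, h⟩ | ⟨u, h⟩) <;> simp at h
  · rintro b' (h | ⟨j, h⟩ | ⟨u, h⟩) <;> simp at h
  · rintro b' (h | ⟨j, h⟩ | ⟨u, h⟩) <;> simp at h
  · rintro b' (h | ⟨j, h⟩ | ⟨u, h⟩) <;> simp at h
    subst h
    exact fun k => Or.inr (Or.inl ⟨k, rfl⟩)
  · rintro b' (h | ⟨j, h⟩ | ⟨u, h⟩) <;> simp at h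
    subst h
    exact fun u => Or.inr (Or.inr ⟨u, rfl⟩)
  · rintro b' u' (h | ⟨j, h⟩ | ⟨u, h⟩) <;> simp at h
    obtain ⟨rfl, -⟩ := h
    exact Filter.univ_mem' fun k => Or.inr (Or.inl ⟨k, rfl⟩)

/-- The basic neighbourhoods of the maximal points. -/
def N (F : Bool → Set (Ultrafilter ℕ)) (b : Bool) (S : Set ℕ) : Set (Pt F) :=
  {y | (∃ k ∈ S, y = p b k) ∨ ∃ u : F b, S ∈ (u : Ultrafilter ℕ) ∧ y = a b u}

theorem op_N (b : Bool) (S : Set ℕ) : Op (N F b S) := by
  constructor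
  · rintro b' k' (⟨j, hj, h⟩ | ⟨u, hu, h⟩) <;> simp at h
  · rintro b' k' (⟨j, hj, h⟩ | ⟨u, hu, h⟩) <;> simp at h
  · rintro b' (⟨j, hj, h⟩ | ⟨u, hu, h⟩) <;> simp at h
  · rintro b' (⟨j, hj, h⟩ | ⟨u, hu, h⟩) <;> simp at h
  · rintro b' (⟨j, hj, h⟩ | ⟨u, hu, h⟩) <;> simp at h
  · rintro b' (⟨j, hj, h⟩ | ⟨u, hu, h⟩) <;> simp at h
  · rintro b' u' (⟨j, hj, h⟩ | ⟨u, hu, h⟩)
    · simp at h
    · obtain ⟨rfl, h2⟩ := Pt.a.inj h
      have h3 : u' = u := eq_of_heq h2
      subst h3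
      exact Filter.mem_of_superset hu fun k hk => Or.inl ⟨k, hk, rfl⟩

/-- A point `p b k` is isolated. -/
theorem op_p (b : Bool) (k : ℕ) : Op ({p b k} : Set (Pt F)) := by
  constructor
  all_goals intro b'
  · intro k' h; simp at h
  · intro k' h; simp at h
  · intro h; simp at h
  · intro h; simp at h
  · intro h; simp at h
  · intro h; simp at h
  · intro u h; simp at h

/-- The points `a b u` together with all `p b k` form an open set. -/
theorem op_a (b : Bool) (u : F b) : Op ({y | y = a b u ∨ ∃ k, y = p b k} : Set (Pt F)) := by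
  constructor
  · rintro b' k' (h | ⟨j, h⟩) <;> simp at h
  · rintro b' k' (h | ⟨j, h⟩) <;> simp at h
  · rintro b' (h | ⟨j, h⟩) <;> simp at h
  · rintro b' (h | ⟨j, h⟩) <;> simp at h
  · rintro b' (h | ⟨j, h⟩) <;> simp at h
  · rintro b' (h | ⟨j, h⟩) <;> simp at h
  · rintro b' u' (h | ⟨j, h⟩)
    · obtain ⟨rfl, -⟩ := Pt.a.inj h
      exact Filter.univ_mem' fun k => Or.inr ⟨k, rfl⟩
    · simp at h

theorem up_eq (hF : ∀ b, ∀ u ∈ F b, (u : Filter ℕ) ≤ cofinite) (z : Pt F) : up z = up' z := by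
  apply Subset.antisymm
  · intro y hy
    rw [mem_up_iff] at hy
    rcases z with ⟨b, k⟩ | ⟨b⟩ | ⟨b⟩ | ⟨b, k⟩ | ⟨b, u⟩
    · exact hy _ (op_up_d hF b k) (Or.inl ⟨k, le_rfl, Or.inl rfl⟩)
    · have h1 : ∀ k, y ∈ up' (d b k) := fun k => hy _ (op_up_d hF b k) (Or.inr (Or.inl rfl))
      rcases h1 0 with ⟨j, hj, h⟩ | h
      · exfalso
        rcases h1 (j + 1) with ⟨i, hi, h'⟩ | rfl | ⟨u, rfl⟩
        · rcases h with rfl | rfl <;> rcases h' with h' | h' <;> simp at h' <;> omega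
        · simp at h
        · simp at h
      · exact h
    · exact hy _ (op_up_x b) (Or.inl rfl)
    · exact hy _ (op_p b k) rfl
    · rcases hy _ (op_a b u) (Or.inl rfl) with h | ⟨k, rfl⟩
      · exact h
      · exfalso
        have h1 : {k}ᶜ ∈ (u : Ultrafilter ℕ) := free_mem (hF b _ u.2) (by simp)
        rcases hy _ (op_N b {k}ᶜ) (Or.inr ⟨u, h1, rfl⟩) with ⟨j, hj, h⟩ | ⟨v, hv, h⟩
        · simp at h
          exact hj h.symm
        · simp at h
  · intro y hy
    rw [mem_up_iff]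
    intro U hU hz
    exact up'_subset z U hU hz hy

theorem t0 (hF : ∀ b, ∀ u ∈ F b, (u : Filter ℕ) ≤ cofinite) : T0Space (Pt F) := by
  constructor
  intro y z h
  have h1 : y ∈ up z := by
    rw [mem_up_iff]
    intro U hU hz
    exact (h.mem_open_iff hU).2 hz
  have h2 : z ∈ up y := by
    rw [mem_up_iff]
    intro U hU hz
    exact (h.mem_open_iff hU).1 hz
  rw [up_eq hF] at h1 h2
  rcases z with ⟨b, k⟩ | ⟨b⟩ | ⟨b⟩ | ⟨b, k⟩ | ⟨b, u⟩
  · rcases h1 with ⟨j, hj, rfl | rfl⟩ | rfl | ⟨u, rfl⟩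
    · rcases h2 with ⟨i, hi, h | h⟩ | h | ⟨u, h⟩ <;> simp at h
      subst h
      have : j = k := by omega
      rw [this]
    · simp [up'] at h2
    · simp [up'] at h2
    · simp [up'] at h2
  · rcases h1 with rfl | ⟨u, rfl⟩
    · rfl
    · simp [up'] at h2
  · rcases h1 with rfl | ⟨j, rfl⟩ | ⟨u, rfl⟩
    · rfl
    · simp [up'] at h2
    · simp [up'] at h2
  · exact h1
  · exact h1

theorem self_mem_up {X : Type} [TopologicalSpace X] (x : X) : x ∈ up x := subset_closure rfl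

theorem strong (hF : ∀ b, ∀ u ∈ F b, (u : Filter ℕ) ≤ cofinite)
    (hd : ∀ b, ∀ T : Set ℕ, T.Infinite → ∃ u ∈ F b, T ∈ u) : StrongDSpace (Pt F) := by
  refine ⟨t0 hF, ?_⟩
  rintro D y U ⟨⟨e₀, he₀⟩, hdir⟩ hU hsub
  have hU' : Op U := hU
  by_cases hmax : ∃ m ∈ D, ∀ e ∈ D, m ∈ up e
  · obtain ⟨m, hm, hmax⟩ := hmax
    refine ⟨m, hm, ?_⟩
    intro z hz
    refine hsub ⟨?_, hz.2⟩
    simp only [mem_iInter]
    intro e he
    rw [mem_up_iff]
    intro V hV heV
    exact mem_up_iff.1 hz.1 V hV (mem_up_iff.1 (hmax e he) V hV heV)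
  · push Not at hmax
    -- `D` has no greatest element
    have hnp : ∀ b k, p b k ∉ D := by
      intro b k h
      obtain ⟨e, he, hne⟩ := hmax _ h
      obtain ⟨g, -, h1, h2⟩ := hdir _ h e he
      rw [up_eq hF] at h1
      have h3 : g = p b k := h1
      rw [h3] at h2
      exact hne h2
    have hna : ∀ b u, a b u ∉ D := by
      intro b u h
      obtain ⟨e, he, hne⟩ := hmax _ h
      obtain ⟨g, -, h1, h2⟩ := hdir _ h e he
      rw [up_eq hF] at h1
      have h3 : g = a b u := h1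
      rw [h3] at h2
      exact hne h2
    have hnx : ∀ b, x b ∉ D := by
      intro b h
      obtain ⟨e, he, hne⟩ := hmax _ h
      obtain ⟨g, hg, h1, h2⟩ := hdir _ h e he
      rw [up_eq hF] at h1
      rcases h1 with rfl | ⟨j, rfl⟩ | ⟨u, rfl⟩
      · exact hne h2
      · exact hnp _ _ hg
      · exact hna _ _ hg
    have hnw : ∀ b, w b ∉ D := by
      intro b h
      obtain ⟨e, he, hne⟩ := hmax _ h
      obtain ⟨g, hg, h1, h2⟩ := hdir _ h e he
      rw [up_eq hF] at h1
      rcases h1 with rfl | ⟨u, rfl⟩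
      · exact hne h2
      · exact hna _ _ hg
    have hd' : ∀ e ∈ D, ∃ b k, e = d b k := by
      intro e he
      rcases e with ⟨b, k⟩ | ⟨b⟩ | ⟨b⟩ | ⟨b, k⟩ | ⟨b, u⟩
      · exact ⟨b, k, rfl⟩
      · exact absurd he (hnw b)
      · exact absurd he (hnx b)
      · exact absurd he (hnp b k)
      · exact absurd he (hna b u)
    obtain ⟨b, k₀, rfl⟩ := hd' e₀ he₀
    have hall : ∀ e ∈ D, ∃ k, e = d b k := by
      intro e he
      obtain ⟨b', k, rfl⟩ := hd' e he
      obtain ⟨g, hg, h1, h2⟩ := hdir _ he₀ _ he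
      obtain ⟨c, l, rfl⟩ := hd' g hg
      rw [up_eq hF] at h1 h2
      rcases h1 with ⟨j, hj, h | h⟩ | h | ⟨u, h⟩ <;> simp at h
      rcases h2 with ⟨i, hi, h' | h'⟩ | h' | ⟨u, h'⟩ <;> simp at h'
      obtain ⟨rfl, rfl⟩ := h
      obtain ⟨rfl, rfl⟩ := h'
      exact ⟨k, rfl⟩
    have hunb : ∀ n, ∃ k, n ≤ k ∧ d b k ∈ D := by
      intro n
      by_contra hcon
      push Not at hcon
      -- a bounded nonempty set of indices has a greatest element
      have hne : ({k | d b k ∈ D} : Set ℕ).Nonempty := ⟨k₀, he₀⟩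
      have hbdd : BddAbove ({k | d b k ∈ D} : Set ℕ) := by
        refine ⟨n, fun k hk => ?_⟩
        by_contra hlt
        exact hcon k (by omega) hk
      have hmem := Nat.sSup_mem hne hbdd
      obtain ⟨e, he, hne'⟩ := hmax _ hmem
      obtain ⟨k, rfl⟩ := hall e he
      apply hne'
      rw [up_eq hF]
      exact Or.inl ⟨_, le_csSup hbdd he, Or.inl rfl⟩
    have hinter_w : w b ∈ ⋂ e ∈ D, up e := by
      simp only [mem_iInter]
      intro e he
      obtain ⟨k, rfl⟩ := hall e he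
      rw [up_eq hF]
      exact Or.inr (Or.inl rfl)
    have hinter_a : ∀ u, a b u ∈ ⋂ e ∈ D, up e := by
      intro u
      simp only [mem_iInter]
      intro e he
      obtain ⟨k, rfl⟩ := hall e he
      rw [up_eq hF]
      exact Or.inr (Or.inr ⟨u, rfl⟩)
    rcases y with ⟨c, l⟩ | ⟨c⟩ | ⟨c⟩ | ⟨c, l⟩ | ⟨c, v⟩
    · by_cases hc : c = b
      · subst hc
        have h1 : w c ∈ U := hsub ⟨hinter_w, by rw [up_eq hF]; exact Or.inr (Or.inl rfl)⟩
        obtain ⟨k, hk⟩ := hU'.w_d c h1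
        obtain ⟨m, hm, hmD⟩ := hunb k
        refine ⟨_, hmD, fun z hz => ?_⟩
        have h2 := hz.1
        rw [up_eq hF] at h2
        exact up'_subset _ U hU' (hU'.d_up c k hk m hm).1 h2
      · refine ⟨_, he₀, fun z hz => ?_⟩
        exfalso
        have h1 := hz.1
        have h2 := hz.2
        rw [up_eq hF] at h1 h2
        rcases h1 with ⟨j, hj, rfl | rfl⟩ | rfl | ⟨u, rfl⟩ <;>
        rcases h2 with ⟨i, hi, h' | h'⟩ | h' | ⟨u', h'⟩ <;> simp at h'
        · exact hc h'.1.symm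
        · exact hc h'.1.symm
        · exact hc h'.symm
        · exact hc h'.1.symm
    · by_cases hc : c = b
      · subst hc
        refine ⟨_, he₀, fun z hz => ?_⟩
        have h2 := hz.2
        rw [up_eq hF] at h2
        rcases h2 with rfl | ⟨u, rfl⟩
        · exact hsub ⟨hinter_w, hz.2⟩
        · exact hsub ⟨hinter_a u, hz.2⟩
      · refine ⟨_, he₀, fun z hz => ?_⟩
        exfalso
        have h1 := hz.1
        have h2 := hz.2
        rw [up_eq hF] at h1 h2
        rcases h1 with ⟨j, hj, rfl | rfl⟩ | rfl | ⟨u, rfl⟩ <;>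
        rcases h2 with h' | ⟨u', h'⟩ <;> simp at h'
        · exact hc h'.symm
        · exact hc h'.1.symm
    · by_cases hc : c = b
      · subst hc
        by_cases hT : ({k | p c k ∉ U} : Set ℕ).Infinite
        · obtain ⟨u, hu, hTu⟩ := hd c _ hT
          exfalso
          have h1 : a c (⟨u, hu⟩ : F c) ∈ U :=
            hsub ⟨hinter_a _, by rw [up_eq hF]; exact Or.inr (Or.inr ⟨_, rfl⟩)⟩
          have h2 : {k | p c k ∈ U} ∈ u := hU'.a_p c ⟨u, hu⟩ h1
          have h3 := Filter.inter_mem h2 hTu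
          refine u.empty_notMem (Filter.mem_of_superset h3 ?_)
          rintro k ⟨hk1, hk2⟩
          exact hk2 hk1
        · rw [Set.not_infinite] at hT
          obtain ⟨n, hn⟩ := hT.bddAbove
          obtain ⟨m, hm, hmD⟩ := hunb (n + 1)
          refine ⟨_, hmD, fun z hz => ?_⟩
          have h1 := hz.1
          have h2 := hz.2
          rw [up_eq hF] at h1 h2
          rcases h1 with ⟨j, hj, rfl | rfl⟩ | rfl | ⟨u, rfl⟩
          · rcases h2 with h' | ⟨i, h'⟩ | ⟨u', h'⟩ <;> simp at h'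
          · by_contra hcon
            have : j ≤ n := hn hcon
            omega
          · rcases h2 with h' | ⟨i, h'⟩ | ⟨u', h'⟩ <;> simp at h'
          · exact hsub ⟨hinter_a u, hz.2⟩
      · refine ⟨_, he₀, fun z hz => ?_⟩
        exfalso
        have h1 := hz.1
        have h2 := hz.2
        rw [up_eq hF] at h1 h2
        rcases h1 with ⟨j, hj, rfl | rfl⟩ | rfl | ⟨u, rfl⟩ <;>
        rcases h2 with h' | ⟨i, h'⟩ | ⟨u', h'⟩ <;> simp at h'
        · exact hc h'.1.symm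
        · exact hc h'.1.symm
    · obtain ⟨m, hm, hmD⟩ := hunb (l + 1)
      refine ⟨_, hmD, fun z hz => ?_⟩
      exfalso
      have h1 := hz.1
      have h2 := hz.2
      rw [up_eq hF] at h1 h2
      have h3 : z = p c l := h2
      subst h3
      rcases h1 with ⟨j, hj, h | h⟩ | h | ⟨u, h⟩ <;> simp at h
      omega
    · refine ⟨_, he₀, fun z hz => ?_⟩
      have h1 := hz.1
      have h2 := hz.2
      rw [up_eq hF] at h1 h2
      have h3 : z = a c v := h2
      subst h3
      rcases h1 with ⟨j, hj, h | h⟩ | h | ⟨u, h⟩ <;> simp at h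
      obtain ⟨rfl, h'⟩ := h
      exact hsub ⟨hinter_a v, self_mem_up _⟩

/-- In a space of continuous maps with the topology of pointwise convergence, the specialization
order is the pointwise one. -/
theorem mem_up_fun {X Y : Type} [TopologicalSpace X] [TopologicalSpace Y]
    {f g : {f : X → Y // Continuous f}} : g ∈ up f ↔ ∀ t, g.1 t ∈ up (f.1 t) := by
  unfold up
  simp only [mem_ofPred_eq, ← specializes_iff_mem_closure]
  rw [subtype_specializes_iff, specializes_pi]

theorem not_strong (hF : ∀ b, ∀ u ∈ F b, (u : Filter ℕ) ≤ cofinite)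
    (hdis : ∀ u ∈ F false, ∀ v ∈ F true, u ≠ v) :
    ¬ StrongDSpace {f : Bool → Pt F // Continuous f} := by
  rintro ⟨-, h⟩
  let D : ℕ → {f : Bool → Pt F // Continuous f} := fun k => ⟨fun b => d b k, continuous_of_discreteTopology⟩
  let x₀ : {f : Bool → Pt F // Continuous f} := ⟨fun b => x b, continuous_of_discreteTopology⟩
  let P : ℕ → {f : Bool → Pt F // Continuous f} := fun k => ⟨fun b => p b k, continuous_of_discreteTopology⟩
  let U : Set {f : Bool → Pt F // Continuous f} :=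
    ⋃ S : Set ℕ, {f | f.1 false ∈ N F false S ∧ f.1 true ∈ N F true Sᶜ}
  have hUo : IsOpen U := by
    refine isOpen_iUnion fun S => ?_
    have h1 : IsOpen {f : {f : Bool → Pt F // Continuous f} | f.1 false ∈ N F false S} :=
      ((isOpen_iff _).2 (op_N false S)).preimage ((continuous_apply false).comp continuous_subtype_val)
    have h2 : IsOpen {f : {f : Bool → Pt F // Continuous f} | f.1 true ∈ N F true Sᶜ} :=
      ((isOpen_iff _).2 (op_N true Sᶜ)).preimage ((continuous_apply true).comp continuous_subtype_val)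
    exact h1.inter h2
  have hDup : ∀ j k, j ≤ k → D k ∈ up (D j) := by
    intro j k hjk
    rw [mem_up_fun]
    intro b
    rw [up_eq hF]
    exact Or.inl ⟨k, hjk, Or.inl rfl⟩
  obtain ⟨_, ⟨k, rfl⟩, hk⟩ := h (Set.range D) x₀ U
    ⟨⟨_, ⟨0, rfl⟩⟩, by
      rintro _ ⟨j, rfl⟩ _ ⟨k, rfl⟩
      exact ⟨_, ⟨max j k, rfl⟩, hDup _ _ (le_max_left _ _), hDup _ _ (le_max_right _ _)⟩⟩ hUo (by
      rintro f ⟨hf1, hf2⟩
      have h1 : ∀ b, ∃ u : F b, f.1 b = a b u := by
        intro b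
        have h2 : f.1 b ∈ up (x b : Pt F) := mem_up_fun.1 hf2 b
        have h3 : ∀ k, f.1 b ∈ up (d b k : Pt F) := fun k =>
          mem_up_fun.1 (mem_iInter₂.1 hf1 (D k) ⟨k, rfl⟩) b
        rw [up_eq hF] at h2
        rcases h2 with h2 | ⟨j, h2⟩ | h2
        · exfalso
          have h4 := h3 0
          rw [h2, up_eq hF] at h4
          rcases h4 with ⟨i, hi, h' | h'⟩ | h' | ⟨u', h'⟩ <;> simp at h'
        · exfalso
          have h4 := h3 (j + 1)
          rw [h2, up_eq hF] at h4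
          rcases h4 with ⟨i, hi, h' | h'⟩ | h' | ⟨u', h'⟩ <;> simp at h'
          omega
        · exact h2
      obtain ⟨u, hu⟩ := h1 false
      obtain ⟨v, hv⟩ := h1 true
      have hne := hdis u.1 u.2 v.1 v.2
      obtain ⟨S, hS1, hS2⟩ : ∃ S : Set ℕ, S ∈ (u : Ultrafilter ℕ) ∧ Sᶜ ∈ (v : Ultrafilter ℕ) := by
        by_contra hcon
        push Not at hcon
        apply hne
        apply Ultrafilter.coe_injective
        refine le_antisymm ?_ ?_
        · have h6 : (v : Filter ℕ).NeBot := inferInstance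
          have h5 : (v : Ultrafilter ℕ).1 ≤ (u : Ultrafilter ℕ).1 := by
            intro S hS
            exact Ultrafilter.compl_notMem_iff.1 (hcon S hS)
          exact (Ultrafilter.unique (u : Ultrafilter ℕ) h5).ge
        · intro S hS
          exact Ultrafilter.compl_notMem_iff.1 (hcon S hS)
      simp only [U, mem_iUnion]
      exact ⟨S, Or.inr ⟨u, hS1, hu⟩, Or.inr ⟨v, hS2, hv⟩⟩)
  have hP : P k ∈ U := by
    refine hk ⟨?_, ?_⟩
    · rw [mem_up_fun]
      intro b
      rw [up_eq hF]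
      exact Or.inl ⟨k, le_rfl, Or.inr rfl⟩
    · rw [mem_up_fun]
      intro b
      rw [up_eq hF]
      exact Or.inr (Or.inl ⟨k, rfl⟩)
  simp only [U, mem_iUnion] at hP
  obtain ⟨S, h1, h2⟩ := hP
  have h3 : k ∈ S := by
    rcases h1 with ⟨j, hj, h'⟩ | ⟨u, hu, h'⟩
    · simp only [P, Pt.p.injEq, true_and] at h'
      rw [h']; exact hj
    · simp [P] at h'
  have h4 : k ∈ Sᶜ := by
    rcases h2 with ⟨j, hj, h'⟩ | ⟨u, hu, h'⟩
    · simp only [P, Pt.p.injEq, true_and] at h'
      rw [h']; exact hj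
    · simp [P] at h'
  exact h4 h3

/-- There are a `T₀` space `X` (the discrete space with two points) and a strong d-space `Y` such
that the space of all continuous maps from `X` to `Y`, with the topology of pointwise convergence, is
not a strong d-space. -/
theorem result : ∃ (X Y : Type) (_ : TopologicalSpace X) (_ : TopologicalSpace Y),
    T0Space X ∧ DiscreteTopology X ∧ Nat.card X = 2 ∧ StrongDSpace Y ∧
      ¬ StrongDSpace {f : X → Y // Continuous f} := by
  obtain ⟨F, hF, hdis, hd⟩ := Pool.Agent.H75.SD.exists_families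
  exact ⟨Bool, Pt F, inferInstance, inferInstance, inferInstance, inferInstance, by simp,
    strong hF hd, not_strong hF hdis⟩

end Pool.Agent.Results.MP_5f2357_gt.PowerNotStrong
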